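import Pool.Agent.Helper44.CM.StmtsB5

namespace CM

namespace H26

variable {n : ℕ}

theorem pd_diff {F : E n → ℝ} (hF : ContDiff ℝ 2 F) (j : Fin n) : Differentiable ℝ (pd j F) := by
  have h1 : ContDiff ℝ 1 (fun x => fderiv ℝ F x) := hF.fderiv_right (m := 1) (by norm_num)
  have h2 : ContDiff ℝ 1 (pd j F) := by
    have := h1.clm_apply (contDiff_const (c := EuclideanSpace.single j (1 : ℝ)))
    exact this
  exact h2.differentiable (by norm_num)

theorem pd_smul {F : E n → ℝ} (hF : Differentiable ℝ F) (t : ℝ) (j : Fin n) :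
    pd j (fun x => t * F x) = fun x => t * pd j F x := by
  funext x
  unfold pd
  rw [fderiv_const_mul (hF x)]
  simp

theorem hess_smul {F : E n → ℝ} (hF : ContDiff ℝ 2 F) (t : ℝ) (x : E n) (i j : Fin n) :
    hess (fun x => t * F x) x i j = t * hess F x i j := by
  unfold hess
  simp only [Matrix.of_apply]
  rw [pd_smul (hF.differentiable (by norm_num)) t j, pd_smul (pd_diff hF j) t i]

theorem quad_one (v : Fin n → ℝ) : ∑ i, ∑ j, v i * (1 : Mt n) i j * v j = ∑ i, v i ^ 2 := by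
  refine Finset.sum_congr rfl fun i _ => ?_
  rw [Finset.sum_eq_single i]
  · rw [Matrix.one_apply_eq]; ring
  · intro b _ hb
    rw [Matrix.one_apply_ne (Ne.symm hb)]; ring
  · intro h; exact absurd (Finset.mem_univ i) h

theorem quad_comb (v : Fin n → ℝ) (H : Mt n) (t : ℝ) (G : Mt n) (hG : ∀ i j, G i j = t * H i j) :
    ∑ i, ∑ j, v i * (1 + G) i j * v j =
      t * ∑ i, ∑ j, v i * (1 + H) i j * v j + (1 - t) * ∑ i, v i ^ 2 := by
  rw [← quad_one v, Finset.mul_sum, Finset.mul_sum, ← Finset.sum_add_distrib]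
  refine Finset.sum_congr rfl fun i _ => ?_
  rw [Finset.mul_sum, Finset.mul_sum, ← Finset.sum_add_distrib]
  refine Finset.sum_congr rfl fun j _ => ?_
  simp only [Matrix.add_apply, hG]
  ring

end H26

theorem st_FSCALE (hA : ST_HBALG) : ST_FSCALE := by
  intro n c K R0 F hF t h0 h1
  obtain ⟨hpos, hconst, hmono, hadd, hsmul, hrest⟩ := hA n
  have hC2 : ContDiff ℝ 2 F := hF.bd.1.of_le (by norm_num)
  refine ⟨hF.c_pos, hF.c_le, hF.K_ge, hF.R_ge, ?_, ?_, ?_, ?_⟩
  · intro x
    show t * F (-x) = t * F x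
    rw [hF.even x]
  · refine hmono 5 5 (|t| * K) K _ le_rfl ?_ (hsmul 5 K t F hF.bd)
    rw [abs_of_nonneg h0]
    nlinarith [hF.K_ge]
  · intro x y hx hy
    show t * F x = t * F y
    rw [hF.far x y hx hy]
  · intro x v
    rw [H26.quad_comb v (hess F x) t _ (fun i j => H26.hess_smul hC2 t x i j)]
    have hq := hF.cvx x v
    have hs : 0 ≤ ∑ i, v i ^ 2 := Finset.sum_nonneg fun i _ => sq_nonneg _
    have hc := hF.c_le
    have h3 : t * (c * ∑ i, v i ^ 2) ≤ t * ∑ i, ∑ j, v i * (1 + hess F x) i j * v j :=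
      mul_le_mul_of_nonneg_left hq h0
    nlinarith [mul_nonneg (mul_nonneg (sub_nonneg.mpr hc) (sub_nonneg.mpr h1)) hs]

end CM
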